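import Pool.Agent.L5helper98.ID.Defs

set_option autoImplicit false

open MeasureTheory ProbabilityTheory Filter Topology Set
open scoped ENNReal BoundedContinuousFunction

namespace Pool.Agent.L5helper40.ID

open Pool.Agent.L5helper98.ID

theorem sym_sum {n : ℕ} (a : Fin n → Fin n → ℝ) (hs : ∀ i j, a i j = a j i) :
    ∑ i, ∑ j, a i j = ∑ i, a i i +
      2 * ∑ i, ∑ j ∈ Finset.univ.filter (fun j => i < j), a i j := by
  have h1 : ∀ i, ∑ j, a i j = a i i + ((∑ j, if i < j then a i j else 0) +
      (∑ j, if j < i then a i j else 0)) := by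
    intro i
    have h2 : ∀ j, a i j = (if j = i then a i j else 0) + ((if i < j then a i j else 0) +
        (if j < i then a i j else 0)) := by
      intro j
      rcases lt_trichotomy i j with h | h | h
      · simp [h, h.ne', not_lt.2 h.le]
      · subst h; simp
      · simp [h, h.ne, not_lt.2 h.le]
    calc ∑ j, a i j = ∑ j, ((if j = i then a i j else 0) + ((if i < j then a i j else 0) +
        (if j < i then a i j else 0))) := Finset.sum_congr rfl fun j _ => h2 j
      _ = _ := by
        rw [Finset.sum_add_distrib, Finset.sum_add_distrib, Finset.sum_ite_eq']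
        simp
  have h3 : ∑ i : Fin n, (∑ j : Fin n, if j < i then a i j else 0) =
      ∑ i : Fin n, (∑ j : Fin n, if i < j then a i j else 0) := by
    rw [Finset.sum_comm]
    refine Finset.sum_congr rfl fun i _ => Finset.sum_congr rfl fun j _ => ?_
    rw [hs j i]
  simp only [Finset.sum_filter]
  rw [Finset.sum_congr rfl fun i _ => h1 i, Finset.sum_add_distrib, Finset.sum_add_distrib, h3]
  ring

theorem MGF_holds : St_MGF := by
  intro G μ Ω _ P _ ω hG hF n x
  have hg : IsGaussianProcess (ω ∘ x) P := hF.gauss.comp_right x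
  have hS : HasGaussianLaw (fun o => ∑ i ∈ (Finset.univ : Finset (Fin n)), (ω ∘ x) i o) P :=
    hg.hasGaussianLaw_fun_sum
  have hmap : P.map (fun o => ∑ i, ω (x i) o) =
      gaussianReal (∫ o, ∑ i, ω (x i) o ∂P) (Var[fun o => ∑ i, ω (x i) o; P]).toNNReal :=
    hS.map_eq_gaussianReal
  have hlaw : ∀ i, HasGaussianLaw (ω (x i)) P := fun i => hF.gauss.hasGaussianLaw_eval (x i)
  have hmem : ∀ i, MemLp (ω (x i)) 2 P := fun i => (hlaw i).memLp (by norm_num)
  have hvar0 : ∀ i, Var[ω (x i); P] = μ * G 0 := by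
    intro i
    have h1 := hF.cov (x i) (x i)
    rw [covariance_self (hF.gauss.aemeasurable (x i)), sub_self] at h1
    exact h1
  have hmean : ∫ o, ∑ i, ω (x i) o ∂P = ∑ i : Fin n, -(μ * G 0) / 2 := by
    rw [integral_finsetSum _ fun i _ => (hlaw i).integrable]
    refine Finset.sum_congr rfl fun i _ => ?_
    rw [hF.mean (x i), hvar0 i]
  have hvar : Var[fun o => ∑ i, ω (x i) o; P] = ∑ i, ∑ j, μ * G (x i - x j) := by
    rw [variance_fun_sum' (fun i _ => hmem i)]
    refine Finset.sum_congr rfl fun i _ => Finset.sum_congr rfl fun j _ => ?_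
    exact hF.cov (x i) (x j)
  have hSm : AEMeasurable (fun o => ∑ i, ω (x i) o) P := hS.aemeasurable
  set m : ℝ := ∫ o, ∑ i, ω (x i) o ∂P with hm
  set v : NNReal := (Var[fun o => ∑ i, ω (x i) o; P]).toNNReal with hv
  have hvr : (v : ℝ) = Var[fun o => ∑ i, ω (x i) o; P] :=
    Real.coe_toNNReal _ (variance_nonneg _ _)
  have h1 : ∫⁻ o, ENNReal.ofReal (Real.exp (∑ i, ω (x i) o)) ∂P =
      ∫⁻ y, ENNReal.ofReal (Real.exp y) ∂(gaussianReal m v) := by
    rw [← hmap, lintegral_map' (by fun_prop) hSm]
  have hint : Integrable (fun y : ℝ => Real.exp y) (gaussianReal m v) := by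
    have := integrable_exp_mul_gaussianReal (μ := m) (v := v) 1
    simpa using this
  have h2 : ∫ y, Real.exp y ∂(gaussianReal m v) = Real.exp (m + v / 2) := by
    have h3 := congrFun (mgf_id_gaussianReal (μ := m) (v := v)) 1
    simp only [mgf, id, one_mul, mul_one, one_pow] at h3
    exact h3
  rw [h1, ← ofReal_integral_eq_lintegral_ofReal hint
    (Eventually.of_forall fun y => (Real.exp_pos y).le), h2]
  congr 2
  have h4 := sym_sum (fun i j => μ * G (x i - x j)) (fun i j => by
    rw [← hG (x i - x j), neg_sub])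
  simp only [sub_self] at h4
  rw [hvr, hvar, h4, hmean]
  simp only [Finset.sum_const, Finset.card_univ, Fintype.card_fin, nsmul_eq_mul]
  ring

end Pool.Agent.L5helper40.ID
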